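import Mathlib
import Pool.Agent.N440.LB.Stm

/-!
# A function which is odd under two reflections whose axes form an irrational angle vanishes
-/

set_option autoImplicit false

namespace Pool.Agent.N263.LB

open Set MeasureTheory Filter Topology Pool.Agent.N440.LB

open scoped Real

theorem t_RO : S_RO := by
  intro a b hirr m C hm hC hper ha hb
  have hF : Fact (0 < 2 * π) := ⟨Real.two_pi_pos⟩
  have hper' : Function.Periodic m (2 * π) := hper
  let mc : AddCircle (2 * π) → ℝ := hper'.lift
  have hmc : ∀ θ : ℝ, mc (θ : AddCircle (2 * π)) = m θ := fun θ => hper'.lift_coe θ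
  have hmeas : Measurable mc := by
    have h1 : mc = fun x => m ((AddCircle.measurableEquivIoc (2 * π) 0 x :
        Ioc (0 : ℝ) (0 + 2 * π)) : ℝ) := by
      funext x
      have h2 : (((AddCircle.measurableEquivIoc (2 * π) 0 x : Ioc (0 : ℝ) (0 + 2 * π)) : ℝ) :
          AddCircle (2 * π)) = x := (AddCircle.measurableEquivIoc (2 * π) 0).symm_apply_apply x
      conv_lhs => rw [← h2]
      exact hmc _
    rw [h1]
    exact hm.comp (measurable_subtype_coe.comp (AddCircle.measurableEquivIoc (2 * π) 0).measurable)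
  have hnull : ∀ N : Set (AddCircle (2 * π)), MeasurableSet N →
      volume ((fun θ : ℝ => (θ : AddCircle (2 * π))) ⁻¹' N) = 0 → volume N = 0 := by
    intro N hN h0
    rw [← (AddCircle.measurePreserving_mk (2 * π) 0).measure_preimage hN.nullMeasurableSet]
    exact measure_mono_null (Set.Subset.refl _) (Measure.absolutelyContinuous_of_le
      Measure.restrict_le_self h0)
  have hnull' : ∀ N : Set (AddCircle (2 * π)), MeasurableSet N → volume N = 0 →
      volume ((fun θ : ℝ => (θ : AddCircle (2 * π))) ⁻¹' N) = 0 := by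
    intro N hN h0
    have h1 : ∀ t : ℝ, volume (((fun θ : ℝ => (θ : AddCircle (2 * π))) ⁻¹' N) ∩
        Ioc t (t + 2 * π)) = 0 := by
      intro t
      rw [← (AddCircle.measurePreserving_mk (2 * π) t).measure_preimage hN.nullMeasurableSet,
        Measure.restrict_apply' measurableSet_Ioc] at h0
      exact h0
    have h2 : ((fun θ : ℝ => (θ : AddCircle (2 * π))) ⁻¹' N) ⊆
        ⋃ n : ℤ, (((fun θ : ℝ => (θ : AddCircle (2 * π))) ⁻¹' N) ∩
          Ioc (n • (2 * π)) (n • (2 * π) + 2 * π)) := by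
      intro x hx
      have h3 : x ∈ ⋃ n : ℤ, Ioc (n • (2 * π)) ((n + 1) • (2 * π)) := by
        rw [iUnion_Ioc_zsmul Real.two_pi_pos]
        exact mem_univ x
      obtain ⟨n, hn⟩ := mem_iUnion.1 h3
      rw [add_smul, one_smul] at hn
      exact mem_iUnion.2 ⟨n, hx, hn⟩
    exact measure_mono_null h2 (measure_iUnion_null fun n => h1 _)
  -- invariance
  have hinv : ∀ᵐ θ : ℝ, m (2 * (a - b) + θ) = m θ := by
    have h1 : ∀ᵐ θ : ℝ, m (2 * a - (2 * b - θ)) = -m (2 * b - θ) :=
      (Measure.measurePreserving_sub_left (volume : Measure ℝ) (2 * b)).quasiMeasurePreserving.ae ha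
    filter_upwards [h1, hb] with θ h2 h3
    rw [h3, neg_neg] at h2
    rw [← h2]
    congr 1
    ring
  have hinvc : mc ∘ (((2 * (a - b) : ℝ) : AddCircle (2 * π)) + ·) =ᵐ[volume] mc := by
    have hms : MeasurableSet {x : AddCircle (2 * π) |
        mc (((2 * (a - b) : ℝ) : AddCircle (2 * π)) + x) = mc x}ᶜ :=
      (measurableSet_eq_fun (hmeas.comp (measurable_const_add _)) hmeas).compl
    have h1 := hnull _ hms (by
      refine measure_mono_null ?_ hinv
      intro θ hθ hθ'
      apply hθ
      show mc (((2 * (a - b) : ℝ) : AddCircle (2 * π)) + (θ : AddCircle (2 * π))) = mc θ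
      rw [← AddCircle.coe_add, hmc, hmc]
      exact hθ')
    exact h1
  have hord : addOrderOf ((2 * (a - b) : ℝ) : AddCircle (2 * π)) = 0 := by
    rw [addOrderOf_eq_zero_iff']
    intro n hn h0
    rw [← AddCircle.coe_nsmul, AddCircle.coe_eq_zero_iff] at h0
    obtain ⟨k, hk⟩ := h0
    apply hirr
    refine ⟨(k : ℚ) / n, ?_⟩
    rw [zsmul_eq_mul, nsmul_eq_mul] at hk
    have hn0 : (n : ℝ) ≠ 0 := by exact_mod_cast hn.ne'
    push_cast
    rw [div_eq_div_iff hn0 Real.pi_ne_zero]
    linarith
  obtain ⟨c, hc⟩ := (AddCircle.ergodic_add_left.2 hord).ae_eq_const_of_ae_eq_comp₀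
    hmeas.nullMeasurable hinvc
  have hmc' : ∀ᵐ θ : ℝ, m θ = c := by
    have hms : MeasurableSet {x : AddCircle (2 * π) | mc x = c}ᶜ :=
      (measurableSet_eq_fun hmeas measurable_const).compl
    have h1 := hnull' _ hms hc
    refine measure_mono_null ?_ h1
    intro θ hθ hθ'
    apply hθ
    show m θ = c
    rw [← hmc]
    exact hθ'
  have hmc2 : ∀ᵐ θ : ℝ, m (2 * a - θ) = c :=
    (Measure.measurePreserving_sub_left (volume : Measure ℝ) (2 * a)).quasiMeasurePreserving.ae hmc'
  obtain ⟨θ, h1, h2, h3⟩ := (hmc'.and (hmc2.and ha)).exists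
  have hc0 : c = 0 := by
    rw [h2, h1] at h3
    linarith
  rw [hc0] at hmc'
  exact hmc'

end Pool.Agent.N263.LB
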